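import Pool.Agent.Lib.MP_b1a3a4_al.MVS.TH.Iface

/-!
# Project MVS, part V, module KRES (13.2)

The normalized chains of labelled cubes are a free resolution.
-/

set_option linter.all false

namespace Pool.Agent.Lib.MP_b1a3a4_al.MVS.TH.H56

open Pool.Agent.Lib.MP_b1a3a4_al.MVS Pool.Agent.Lib.MP_b1a3a4_al.MVS.TH

/-- the basis of the resolution -/
abbrev XX (S : Type) [Group S] (q : ℕ) : Type :=
  {c : Lab S q // ¬ IsDeg c ∧ c (fun _ => false) = 1}

section kres

variable {S : Type} [Group S] {q : ℕ}

lemma isDeg_tr {q : ℕ} {c : Lab S q} (h : IsDeg c) (g : S) :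
    IsDeg (fun b => g * c b : Lab S q) := by
  cases q with
  | zero => exact h.elim
  | succ q =>
    obtain ⟨i, c', rfl⟩ := h
    exact ⟨i, fun b => g * c' b, rfl⟩

lemma not_isDeg_tr {q : ℕ} {c : Lab S q} (h : ¬ IsDeg c) (g : S) :
    ¬ IsDeg (fun b => g * c b : Lab S q) := by
  intro h'
  apply h
  have := isDeg_tr h' g⁻¹
  simpa using this

/-- the cube `c` as an element of the resolution -/
noncomputable def sgb (c : Lab S q) : XX S q →₀ MonoidAlgebra ℤ S := by
  classical
  exact if h : IsDeg c then 0 else
    Finsupp.single ⟨fun b => (c (fun _ => false))⁻¹ * c b, not_isDeg_tr h _, by simp⟩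
      (MonoidAlgebra.single (c (fun _ => false)) 1)

lemma sgb_deg {c : Lab S q} (h : IsDeg c) : sgb c = 0 := by
  classical
  simp [sgb, h]

lemma sgb_of {c : Lab S q} (h : ¬ IsDeg c) (x : XX S q)
    (hx : ∀ b, x.1 b = (c (fun _ => false))⁻¹ * c b) :
    sgb c = Finsupp.single x (MonoidAlgebra.single (c (fun _ => false)) 1) := by
  classical
  have : x = ⟨fun b => (c (fun _ => false))⁻¹ * c b, not_isDeg_tr h _, by simp⟩ := by
    apply Subtype.ext
    funext b
    exact hx b
  rw [this]
  simp only [sgb]
  rw [dif_neg h]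

/-- the projection to the resolution -/
noncomputable def sg : Chn S q →+ (XX S q →₀ MonoidAlgebra ℤ S) :=
  Finsupp.liftAddHom (fun c => (zmultiplesHom _ (sgb c)))

lemma sg_single (c : Lab S q) (m : ℤ) : sg (Finsupp.single c m) = m • sgb c := by
  simp [sg]

/-- the inclusion of the resolution -/
noncomputable def th : (XX S q →₀ MonoidAlgebra ℤ S) →+ Chn S q :=
  Finsupp.liftAddHom (fun x => (Finsupp.mapDomain.addMonoidHom
    (fun g : S => (fun b => g * x.1 b : Lab S q))).comp
      (MonoidAlgebra.coeffAddEquiv (R := ℤ) (M := S)).toAddMonoidHom)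

lemma th_single (x : XX S q) (g : S) (m : ℤ) :
    th (Finsupp.single x (MonoidAlgebra.single g m)) =
      Finsupp.single (fun b => g * x.1 b : Lab S q) m := by
  simp [th]

lemma add_ext {X M : Type} [AddCommGroup M] {f g : (X →₀ MonoidAlgebra ℤ S) →+ M}
    (h : ∀ x s m, f (Finsupp.single x (MonoidAlgebra.single s m)) =
      g (Finsupp.single x (MonoidAlgebra.single s m))) : f = g := by
  apply Finsupp.addHom_ext
  intro x a
  induction a using MonoidAlgebra.induction_linear with
  | zero => simp
  | add a b ha hb => rw [Finsupp.single_add, map_add, map_add, ha, hb]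
  | single s m => exact h x s m

lemma sg_th (z : XX S q →₀ MonoidAlgebra ℤ S) : sg (th z) = z := by
  have : (sg.comp th : (XX S q →₀ MonoidAlgebra ℤ S) →+ _) = AddMonoidHom.id _ := by
    apply add_ext
    intro x s m
    simp only [AddMonoidHom.comp_apply, AddMonoidHom.id_apply]
    rw [th_single, sg_single, sgb_of (not_isDeg_tr x.2.1 s) x (by intro b; simp [x.2.2])]
    simp [x.2.2]
  exact DFunLike.congr_fun this z

lemma suppIn_deg_single_sub (c : Lab S q) : SuppIn IsDeg (Finsupp.single c 1 - th (sgb c)) := by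
  classical
  by_cases h : IsDeg c
  · rw [sgb_deg h, map_zero, sub_zero]
    exact suppIn_single h 1
  · rw [sgb_of h ⟨fun b => (c (fun _ => false))⁻¹ * c b, not_isDeg_tr h _, by simp⟩
      (fun b => rfl), th_single]
    simp only [mul_inv_cancel_left, sub_self]
    exact suppIn_zero _

lemma suppIn_sub_th (z : Chn S q) : SuppIn IsDeg (z - th (sg z)) := by
  induction z using Finsupp.induction_linear with
  | zero => simpa using suppIn_zero _
  | add z w hz hw =>
    have : z + w - th (sg (z + w)) = (z - th (sg z)) + (w - th (sg w)) := by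
      rw [map_add, map_add]; abel
    rw [this]
    exact hz.add hw
  | single c m =>
    have : (Finsupp.single c m : Chn S q) - th (sg (Finsupp.single c m)) =
        m • (Finsupp.single c 1 - th (sgb c)) := by
      rw [sg_single, map_zsmul, smul_sub, Finsupp.smul_single, smul_eq_mul, mul_one]
    rw [this]
    exact (suppIn_deg_single_sub c).smul m

lemma sg_deg {z : Chn S q} (h : SuppIn IsDeg z) : sg z = 0 := by
  rw [← Finsupp.sum_single z, Finsupp.sum, map_sum]
  apply Finset.sum_eq_zero
  intro c hc
  rw [sg_single, sgb_deg (h c hc), smul_zero]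

lemma suppIn_of_sg {z : Chn S q} (h : sg z = 0) : SuppIn IsDeg z := by
  have := suppIn_sub_th z
  rwa [h, map_zero, sub_zero] at this

/-- translation of chains and the projection -/
lemma sg_push (g : S) (z : Chn S q) :
    sg (pushL (fun s => g * s) z) = (MonoidAlgebra.single g 1 : MonoidAlgebra ℤ S) • sg z := by
  induction z using Finsupp.induction_linear with
  | zero => simp
  | add z w hz hw => rw [map_add, map_add, map_add, smul_add, hz, hw]
  | single c m =>
    rw [pushL_single, sg_single, sg_single]
    by_cases h : IsDeg c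
    · rw [sgb_deg h, sgb_deg (isDeg_tr h g)]; simp
    · rw [sgb_of h ⟨fun b => (c (fun _ => false))⁻¹ * c b, not_isDeg_tr h _, by simp⟩
        (fun b => rfl),
        sgb_of (not_isDeg_tr h g)
          ⟨fun b => (c (fun _ => false))⁻¹ * c b, not_isDeg_tr h _, by simp⟩
          (fun b => by simp [mul_assoc])]
      have e : (MonoidAlgebra.single g 1 : MonoidAlgebra ℤ S) •
          (Finsupp.single (⟨fun b => (c (fun _ => false))⁻¹ * c b, not_isDeg_tr h _, by simp⟩ :
            XX S q) (MonoidAlgebra.single (c (fun _ => false)) (1 : ℤ))) =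
          Finsupp.single (⟨fun b => (c (fun _ => false))⁻¹ * c b, not_isDeg_tr h _, by simp⟩ :
            XX S q) (MonoidAlgebra.single (g * c (fun _ => false)) 1) := by
        rw [Finsupp.smul_single, smul_eq_mul, MonoidAlgebra.single_mul_single, one_mul]
      rw [smul_comm, e]

lemma th_smul (x : XX S q) (g : S) (m : ℤ) :
    th (Finsupp.single x (MonoidAlgebra.single g m)) =
      m • pushL (fun s => g * s) (Finsupp.single x.1 1) := by
  rw [th_single, pushL_single, Finsupp.smul_single, smul_eq_mul, mul_one]

/-- the differential -/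
noncomputable def dd (S : Type) [Group S] : Dif (MonoidAlgebra ℤ S) (XX S) := fun q =>
  Finsupp.linearCombination _ (fun x : XX S (q + 1) => sg (dK (Finsupp.single x.1 1)))

lemma dd_eq (hd : DkdkStatement) (z : XX S (q + 1) →₀ MonoidAlgebra ℤ S) :
    dd S q z = sg (dK (th z)) := by
  have : (dd S q).toAddMonoidHom = (sg.comp ((dK (V := S) (q := q)).toAddMonoidHom.comp th)) := by
    apply add_ext
    intro x s m
    show dd S q _ = sg (dK (th _))
    rw [th_smul, map_zsmul, map_zsmul, hd.2.2.1, sg_push]
    simp only [dd]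
    rw [Finsupp.linearCombination_single, ← smul_assoc]
    congr 1
    simp
  exact DFunLike.congr_fun this z

/-- the prism of a chain over `S` from the identity to the constant map -/
lemma prism (hd : DkdkStatement) (z : Chn S (q + 1)) (hz : SuppIn IsDeg (dK z)) :
    SuppIn IsDeg (dK (prL (fun s : S => s) (fun _ => (1 : S)) z) + z) := by
  rw [hd.2.2.2.2.2.2]
  have h1 : pushL (fun s : S => s) z = z := by
    have : pushL (fun s : S => s) = (LinearMap.id : Chn S (q + 1) →ₗ[ℤ] _) := by
      apply Finsupp.lhom_ext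
      intro c m
      rw [pushL_single]
      rfl
    rw [this]; rfl
  have h2 : SuppIn IsDeg (pushL (fun _ : S => (1 : S)) z) := by
    have h0 : SuppIn (fun _ => True) z := fun _ _ => trivial
    refine h0.map _ (fun c _ => ?_)
    rw [pushL_single]
    exact suppIn_single ⟨0, fun _ => 1, rfl⟩ 1
  have h3 : SuppIn IsDeg (prL (fun s : S => s) (fun _ => (1 : S)) (dK z)) :=
    hd.2.2.2.2.1 _ _ _ _ _ _ hz
  rw [h1]
  have e : pushL (fun _ : S => (1 : S)) z - z - prL (fun s : S => s) (fun _ => (1 : S)) (dK z) + z =
      pushL (fun _ : S => (1 : S)) z - prL (fun s : S => s) (fun _ => (1 : S)) (dK z) := by abel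
  rw [e]
  exact h2.sub h3

/-- the sum of the coefficients -/
noncomputable def tot : Chn S 0 →ₗ[ℤ] ℤ := Finsupp.linearCombination ℤ (fun _ => (1 : ℤ))

lemma tot_dK (w : Chn S 1) : tot (dK w) = 0 := by
  have : tot ∘ₗ dK = (0 : Chn S 1 →ₗ[ℤ] ℤ) := by
    apply Finsupp.lhom_ext'
    intro c
    apply LinearMap.ext_ring
    simp [dK_single, tot]
  exact LinearMap.congr_fun this w

lemma push_tot (z : Chn S 0) :
    pushL (fun _ : S => (1 : S)) z = Finsupp.single (fun _ => 1) (tot z) := by
  have : pushL (fun _ : S => (1 : S)) =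
      (Finsupp.lsingle (fun _ => 1) ∘ₗ tot : Chn S 0 →ₗ[ℤ] Chn S 0) := by
    apply Finsupp.lhom_ext'
    intro c
    apply LinearMap.ext_ring
    simp [tot]
  rw [this]
  rfl

lemma suppIn_zero_deg {z : Chn S 0} (h : SuppIn IsDeg z) : z = 0 := by
  rw [← Finsupp.support_eq_empty, Finset.eq_empty_iff_forall_notMem]
  intro c hc
  exact h c hc

/-- the element `1` of the trivial module -/
def one (S : Type) : Triv ℤ S := (1 : ℤ)

/-- the augmentation -/
noncomputable def eps : (XX S 0 →₀ MonoidAlgebra ℤ S) →ₗ[MonoidAlgebra ℤ S] Triv ℤ S :=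
  Finsupp.linearCombination _ (fun _ => one S)

lemma eps_single (x : XX S 0) (s : S) (m : ℤ) :
    eps (Finsupp.single x (MonoidAlgebra.single s m)) = (show Triv ℤ S from m) := by
  rw [eps, Finsupp.linearCombination_single, triv_smul, aug_single]
  show (m * 1 : ℤ) = m
  rw [mul_one]

lemma eps_eq (z : XX S 0 →₀ MonoidAlgebra ℤ S) :
    (show ℤ from eps z) = tot (th z) := by
  let f : (XX S 0 →₀ MonoidAlgebra ℤ S) →+ ℤ := (eps (S := S)).toAddMonoidHom
  have : f = (tot (S := S)).toAddMonoidHom.comp th := by
    apply add_ext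
    intro x s m
    show (show ℤ from eps _) = tot (th _)
    rw [th_single, eps_single]
    simp [tot]
  exact DFunLike.congr_fun this z

end kres

/-- the resolution -/
noncomputable def kr (hd : DkdkStatement) (S : Type) [Group S] : GRes ℤ S where
  X := XX S
  d := dd S
  ε := eps
  ε_surj := by
    intro m
    refine ⟨Finsupp.single ⟨fun _ => 1, fun h => h, rfl⟩
      (MonoidAlgebra.single 1 (show ℤ from m)), ?_⟩
    exact eps_single _ _ _
  ex0 := by
    intro z
    constructor
    · intro h
      have h1 : tot (th z) = 0 := by rw [← eps_eq]; exact h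
      have h2 : dK (prL (fun s : S => s) (fun _ => (1 : S)) (th z)) = - th z := by
        rw [hd.2.2.2.2.2.1, push_tot, h1]
        have h3 : pushL (fun s : S => s) (th z) = th z := by
          have : pushL (fun s : S => s) = (LinearMap.id : Chn S 0 →ₗ[ℤ] _) := by
            apply Finsupp.lhom_ext
            intro c m
            rw [pushL_single]
            rfl
          rw [this]; rfl
        rw [h3]; simp
      refine ⟨- sg (prL (fun s : S => s) (fun _ => (1 : S)) (th z)), ?_⟩
      rw [map_neg, dd_eq hd]
      have h4 := suppIn_sub_th (prL (fun s : S => s) (fun _ => (1 : S)) (th z))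
      have h5 := sg_deg (hd.2.1 _ _ _ h4)
      rw [map_sub, map_sub, sub_eq_zero] at h5
      rw [← h5, h2, map_neg, neg_neg, sg_th]
    · rintro ⟨y, rfl⟩
      have h1 : tot (th (dd S 0 y)) = 0 := by
        rw [dd_eq hd]
        have h2 := suppIn_zero_deg (suppIn_sub_th (dK (th y)))
        rw [sub_eq_zero] at h2
        rw [← h2, tot_dK]
      rw [← eps_eq] at h1
      exact h1
  ex := by
    intro q z
    constructor
    · intro h
      rw [dd_eq hd] at h
      have h1 := prism hd (th z) (suppIn_of_sg h)
      refine ⟨- sg (prL (fun s : S => s) (fun _ => (1 : S)) (th z)), ?_⟩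
      rw [map_neg, dd_eq hd]
      have h4 := suppIn_sub_th (prL (fun s : S => s) (fun _ => (1 : S)) (th z))
      have h5 := sg_deg (hd.2.1 _ _ _ h4)
      rw [map_sub, map_sub, sub_eq_zero] at h5
      rw [← h5]
      have h6 := sg_deg h1
      rw [map_add, sg_th] at h6
      rw [neg_eq_iff_add_eq_zero, h6]
    · rintro ⟨y, rfl⟩
      rw [dd_eq hd, dd_eq hd]
      have h4 := suppIn_sub_th (dK (th y))
      have h5 := sg_deg (hd.2.1 _ _ _ h4)
      rw [map_sub, map_sub, sub_eq_zero, hd.1, map_zero] at h5
      exact h5.symm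

theorem kres (hd : DkdkStatement) : KresStatement := by
  intro S _
  refine ⟨kr hd S, fun q x => x.1, fun q => th, ?_, ?_, ?_, ?_, ?_⟩
  · intro q x
    exact x.2
  · intro q c h1 h2
    exact ⟨⟨c, h1, h2⟩, rfl⟩
  · intro q
    exact Subtype.val_injective
  · intro q x g m
    exact th_single x g m
  · intro q z
    have h := suppIn_sub_th (dK (th (S := S) (q := q + 1) z))
    rw [← dd_eq hd (S := S) (q := q) z] at h
    exact h

end Pool.Agent.Lib.MP_b1a3a4_al.MVS.TH.H56
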