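import Pool.Agent.Lib.MP_b1a3a4_al.MVS.TH.Iface

/-!
# Project MVS, part V, module REAL (13.12)

Gluing of maps on the small cubes of the boundary of a grid.
-/

set_option linter.all false

namespace Pool.Agent.Lib.MP_b1a3a4_al.MVS.TH.H56

open Pool.Agent.Lib.MP_b1a3a4_al.MVS.TH

section real

variable {V W : Type}

/-- moving one coordinate to the next small cube -/
lemma real_step (m : ℕ) {q : ℕ} (Ψ : Lab V q → Cu q → W) (Ψ1 : Lab V (q + 1) → Cu (q + 1) → W)
    (P : Lab V (q + 1) → Prop)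
    (hface : ∀ c, P c → ∀ i ε x, Ψ1 c (fi i ε x) = Ψ (fc i ε c) x)
    (G : (Fin (q + 1) → ℕ) → V) (hG : ∀ p : Fin (q + 1) → ℕ, (∀ i, p i < 2 ^ m) → P (lab G p))
    (p : Fin (q + 1) → ℕ) (y : Cu (q + 1)) (j : Fin (q + 1)) (hp : ∀ i, p i < 2 ^ m)
    (hj : p j + 1 < 2 ^ m) (hy : y j = 1) :
    Ψ1 (lab G p) y = Ψ1 (lab G (Function.update p j (p j + 1))) (Function.update y j 0) ∧
      sc m p y = sc m (Function.update p j (p j + 1)) (Function.update y j 0) := by
  have hp' : ∀ i, Function.update p j (p j + 1) i < 2 ^ m := by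
    intro i
    by_cases h : i = j
    · subst h; simpa using hj
    · simpa [h] using hp i
  have e1 : y = fi j true (rem j y) := by
    have := ins_rem j y
    rw [hy] at this
    exact this.symm
  have e2 : Function.update y j 0 = fi j false (rem j y) := by
    have h1 : Function.update (ins j (y j) (rem j y)) j 0 = ins j 0 (rem j y) := ins_update j _ _ _
    rw [ins_rem] at h1
    exact h1
  constructor
  · rw [e2]
    conv_lhs => rw [e1]
    rw [hface _ (hG p hp), hface _ (hG _ hp')]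
    congr 1
    funext b
    simp only [fc, lab]
    congr 1
    funext i
    rcases Fin.eq_self_or_eq_succAbove j i with rfl | ⟨k, rfl⟩
    · simp
    · simp [Fin.succAbove_ne]
  · funext i
    apply Subtype.ext
    rw [sc_val m p y i (hp i), sc_val m _ _ i (hp' i)]
    by_cases h : i = j
    · subst h
      simp [hy]
    · simp [h]

/-- two different representations of the coordinate `j` -/
lemma real_coord (m : ℕ) {q : ℕ} (p p' : Fin q → ℕ) (y y' : Cu q) (hp : ∀ i, p i < 2 ^ m)
    (hp' : ∀ i, p' i < 2 ^ m) (h : sc m p y = sc m p' y') (j : Fin q) :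
    (p j : ℝ) + y j = (p' j : ℝ) + y' j := by
  have h1 : (sc m p y j : ℝ) = (sc m p' y' j : ℝ) := by rw [h]
  rw [sc_val m p y j (hp j), sc_val m p' y' j (hp' j)] at h1
  have : (0 : ℝ) < 2 ^ m := by positivity
  field_simp at h1
  linarith

lemma real_coord_lt (m : ℕ) {q : ℕ} (p p' : Fin q → ℕ) (y y' : Cu q) (hp : ∀ i, p i < 2 ^ m)
    (hp' : ∀ i, p' i < 2 ^ m) (h : sc m p y = sc m p' y') (j : Fin q) (hlt : p j < p' j) :
    p' j = p j + 1 ∧ y j = 1 := by
  have h1 := real_coord m p p' y y' hp hp' h j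
  have h2 := (y j).2.2
  have h3 := (y' j).2.1
  have h4 : (p j : ℝ) + 1 ≤ p' j := by exact_mod_cast hlt
  have h5 : (p' j : ℝ) ≤ p j + 1 := by linarith
  have h6 : p' j ≤ p j + 1 := by exact_mod_cast h5
  refine ⟨by omega, ?_⟩
  apply Subtype.ext
  show (y j : ℝ) = 1
  linarith

/-- the value only depends on the point -/
lemma real_uniq (P : ∀ q, Lab V q → Prop) (Ψ : ∀ q, Lab V q → Cu q → W) (k : ℕ)
    (hface : ∀ q, q + 1 ≤ k → ∀ c, P (q + 1) c → ∀ i ε x,
      Ψ (q + 1) c (fi i ε x) = Ψ q (fc i ε c) x) (m : ℕ) :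
    ∀ (n q : ℕ), q ≤ k → ∀ (G : (Fin q → ℕ) → V),
      (∀ p : Fin q → ℕ, (∀ i, p i < 2 ^ m) → P q (lab G p)) →
      ∀ (p p' : Fin q → ℕ) (y y' : Cu q), (∀ i, p i < 2 ^ m) → (∀ i, p' i < 2 ^ m) →
        (Finset.univ.filter (fun j => p j ≠ p' j)).card = n →
        sc m p y = sc m p' y' → Ψ q (lab G p) y = Ψ q (lab G p') y' := by
  intro n
  induction n with
  | zero =>
    intro q hq G hG p p' y y' hp hp' hn h
    have e : p = p' := by
      funext j
      by_contra hne
      have : j ∈ Finset.univ.filter (fun j => p j ≠ p' j) := by simp [hne]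
      rw [Finset.card_eq_zero.1 hn] at this
      simp at this
    subst e
    have e : y = y' := by
      funext j
      apply Subtype.ext
      have := real_coord m p p y y' hp hp h j
      linarith
    rw [e]
  | succ n ih =>
    intro q hq G hG p p' y y' hp hp' hn h
    obtain ⟨j, hj⟩ : ∃ j, p j ≠ p' j := by
      have : 0 < (Finset.univ.filter (fun j => p j ≠ p' j)).card := by omega
      obtain ⟨j, hj⟩ := Finset.card_pos.1 this
      exact ⟨j, by simpa using hj⟩
    obtain ⟨q', rfl⟩ : ∃ q', q = q' + 1 := by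
      cases q with
      | zero => exact j.elim0
      | succ q' => exact ⟨q', rfl⟩
    have hf := fun c hc i ε x => hface q' hq c hc i ε x
    rcases lt_or_gt_of_ne hj with hlt | hgt
    · obtain ⟨h1, h2⟩ := real_coord_lt m p p' y y' hp hp' h j hlt
      have hs := real_step m (Ψ q') (Ψ (q' + 1)) (P (q' + 1)) hf G hG p y j hp
        (by have := hp' j; omega) h2
      rw [hs.1]
      refine ih (q' + 1) hq G hG _ p' _ y' ?_ hp' ?_ (hs.2.symm.trans h)
      · intro i
        by_cases hi : i = j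
        · subst hi; have := hp' i; simp; omega
        · simpa [hi] using hp i
      · have e : (Finset.univ.filter
            (fun i => Function.update p j (p j + 1) i ≠ p' i)) =
            (Finset.univ.filter (fun j => p j ≠ p' j)).erase j := by
          ext i
          simp only [Finset.mem_filter, Finset.mem_univ, true_and, Finset.mem_erase]
          by_cases hi : i = j
          · subst hi; simp [h1]
          · simp [hi]
        rw [e, Finset.card_erase_of_mem (by simpa using hj), hn]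
        rfl
    · obtain ⟨h1, h2⟩ := real_coord_lt m p' p y' y hp' hp h.symm j hgt
      have hs := real_step m (Ψ q') (Ψ (q' + 1)) (P (q' + 1)) hf G hG p' y' j hp'
        (by have := hp j; omega) h2
      rw [hs.1]
      refine ih (q' + 1) hq G hG p _ y _ hp ?_ ?_ (h.trans hs.2)
      · intro i
        by_cases hi : i = j
        · subst hi; have := hp i; simp; omega
        · simpa [hi] using hp' i
      · have e : (Finset.univ.filter
            (fun i => p i ≠ Function.update p' j (p' j + 1) i)) =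
            (Finset.univ.filter (fun j => p j ≠ p' j)).erase j := by
          ext i
          simp only [Finset.mem_filter, Finset.mem_univ, true_and, Finset.mem_erase]
          by_cases hi : i = j
          · subst hi; simp [h1]
          · simp [hi]
        rw [e, Finset.card_erase_of_mem (by simpa using hj), hn]
        rfl

/-- a face of a small cube in the boundary of the grid -/
lemma real_face_sc (m : ℕ) {q : ℕ} (i : Fin (q + 1)) (ε : Bool) (p : Fin q → ℕ) (y : Cu q)
    (hp : ∀ i, p i < 2 ^ m) :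
    fi i ε (sc m p y) = sc m (ins i (if ε then 2 ^ m - 1 else 0) p) (fi i ε y) := by
  have hN : (1 : ℕ) ≤ 2 ^ m := Nat.one_le_two_pow
  funext j
  apply Subtype.ext
  rcases Fin.eq_self_or_eq_succAbove i j with rfl | ⟨k, rfl⟩
  · rw [sc_val]
    · cases ε
      · simp [fi]
      · simp only [fi, ins_same, if_true, ev_true]
        push_cast [Nat.cast_sub hN]
        have : (0 : ℝ) < 2 ^ m := by positivity
        field_simp
        simp
    · cases ε
      · simp
      · simp
  · rw [sc_val]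
    · simp only [fi, ins_succAbove]
      rw [sc_val m p y k (hp k)]
    · simpa using hp k

lemma real_lab_face (m : ℕ) {q : ℕ} (i : Fin (q + 1)) (ε : Bool) (G : (Fin (q + 1) → ℕ) → V)
    (p : Fin q → ℕ) :
    fc i ε (lab G (ins i (if ε then 2 ^ m - 1 else 0) p)) = lab (gf i ε (2 ^ m) G) p := by
  have hN : (1 : ℕ) ≤ 2 ^ m := Nat.one_le_two_pow
  funext b
  simp only [fc, lab, gf]
  congr 1
  funext j
  rcases Fin.eq_self_or_eq_succAbove i j with rfl | ⟨k, rfl⟩
  · cases ε
    · simp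
    · simp only [ins_same, if_true, Bool.toNat_true]
      omega
  · simp

lemma gf_gf {q : ℕ} (i : Fin (q + 2)) (j : Fin (q + 1)) (ε δ : Bool) (N : ℕ)
    (G : (Fin (q + 2) → ℕ) → V) :
    gf j δ N (gf i ε N G) = gf (j.predAbove i) ε N (gf (i.succAbove j) δ N G) := by
  funext p
  simp only [gf]
  rw [ins_ins]

lemma ev_inj {ε δ : Bool} (h : ev ε = ev δ) : ε = δ := by
  cases ε <;> cases δ <;> simp_all

/-- different directions -/
lemma real_compat_ne (P : ∀ q, Lab V q → Prop) (Ψ : ∀ q, Lab V q → Cu q → W) (q : ℕ)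
    (hface : ∀ r, r + 1 ≤ q + 1 → ∀ c, P (r + 1) c → ∀ i ε x,
      Ψ (r + 1) c (fi i ε x) = Ψ r (fc i ε c) x) (m : ℕ) (G : (Fin (q + 2) → ℕ) → V)
    (hG : BLab m G (P (q + 1))) (i : Fin (q + 2)) (j : Fin (q + 1)) (ε δ : Bool)
    (p p' : Fin (q + 1) → ℕ) (y y' : Cu (q + 1)) (hp : ∀ i, p i < 2 ^ m)
    (hp' : ∀ i, p' i < 2 ^ m)
    (h : fi i ε (sc m p y) = fi (i.succAbove j) δ (sc m p' y')) :
    Ψ (q + 1) (lab (gf i ε (2 ^ m) G) p) y =
      Ψ (q + 1) (lab (gf (i.succAbove j) δ (2 ^ m) G) p') y' := by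
  have hN : (1 : ℕ) ≤ 2 ^ m := Nat.one_le_two_pow
  -- the common face
  have h1 : sc m p y = fi j δ (rem j (sc m p y)) := by
    have := (ins_eq_iff i (ev ε) (sc m p y) _).1 h
    have h2 : sc m p y j = ev δ := by
      rw [this.2]
      simp [fi]
    rw [fi, ← h2, ins_rem]
  have h2 : sc m p' y' = fi (j.predAbove i) ε (rem j (sc m p y)) := by
    have h3 := (ins_eq_iff (i.succAbove j) (ev δ) (sc m p' y') _).1 h.symm
    rw [h3.2]
    have h4 : fi i ε (sc m p y) = ins i (ev ε) (ins j (ev δ) (rem j (sc m p y))) := by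
      conv_lhs => rw [h1]
      rfl
    rw [h4, ins_ins, rem_ins]
    rfl
  obtain ⟨p'', hp'', y'', h5⟩ := sc_cover m (rem j (sc m p y))
  rw [h5] at h1 h2
  rw [real_face_sc m j δ p'' y'' hp''] at h1
  rw [real_face_sc m (j.predAbove i) ε p'' y'' hp''] at h2
  have hb : ∀ (l : Fin (q + 1)) (η : Bool) (i' : Fin (q + 1)),
      ins l (if η then 2 ^ m - 1 else 0) p'' i' < 2 ^ m := by
    intro l η i'
    rcases Fin.eq_self_or_eq_succAbove l i' with rfl | ⟨k, rfl⟩
    · cases η <;> simp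
    · simpa using hp'' k
  rw [real_uniq P Ψ (q + 1) hface m _ (q + 1) le_rfl (gf i ε (2 ^ m) G) (hG i ε) p _ y _ hp
    (hb _ _) rfl h1]
  rw [real_uniq P Ψ (q + 1) hface m _ (q + 1) le_rfl (gf (i.succAbove j) δ (2 ^ m) G)
    (hG (i.succAbove j) δ) p' _ y' _ hp' (hb _ _) rfl h2]
  rw [hface q le_rfl _ (hG i ε _ (hb _ _)), hface q le_rfl _ (hG _ δ _ (hb _ _)),
    real_lab_face, real_lab_face, gf_gf]

lemma real_compat (P : ∀ q, Lab V q → Prop) (Ψ : ∀ q, Lab V q → Cu q → W) (k : ℕ)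
    (hface : ∀ r, r + 1 ≤ k → ∀ c, P (r + 1) c → ∀ i ε x,
      Ψ (r + 1) c (fi i ε x) = Ψ r (fc i ε c) x) (m : ℕ) (G : (Fin (k + 1) → ℕ) → V)
    (hG : BLab m G (P k)) (i j : Fin (k + 1)) (ε δ : Bool)
    (p p' : Fin k → ℕ) (y y' : Cu k) (hp : ∀ i, p i < 2 ^ m)
    (hp' : ∀ i, p' i < 2 ^ m)
    (h : fi i ε (sc m p y) = fi j δ (sc m p' y')) :
    Ψ k (lab (gf i ε (2 ^ m) G) p) y = Ψ k (lab (gf j δ (2 ^ m) G) p') y' := by
  rcases Fin.eq_self_or_eq_succAbove i j with rfl | ⟨l, rfl⟩
  · obtain ⟨h1, h2⟩ := ins_inj _ h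
    have := ev_inj h1
    subst this
    exact real_uniq P Ψ k hface m _ k le_rfl _ (hG _ _) p p' y y' hp hp' rfl h2
  · cases k with
    | zero => exact l.elim0
    | succ q =>
      exact real_compat_ne P Ψ q hface m G hG i l ε δ p p' y y' hp hp' h

/-- continuity can be tested on the small cubes -/
lemma real_cont [TopologicalSpace W] {q : ℕ} (m : ℕ) (g : Cu q → W)
    (h : ∀ p : Fin q → ℕ, (∀ i, p i < 2 ^ m) → Continuous (fun y => g (sc m p y))) :
    Continuous g := by
  let π : (Fin q → Fin (2 ^ m)) × Cu q → Cu q := fun a => sc m (fun i => (a.1 i : ℕ)) a.2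
  have hπ : Continuous π := by
    rw [continuous_prod_of_discrete_left]
    intro p
    exact continuous_sc m (fun i => (p i : ℕ))
  have hs : Function.Surjective π := by
    intro x
    obtain ⟨p, hp, y, rfl⟩ := sc_cover m x
    exact ⟨⟨fun i => ⟨p i, hp i⟩, y⟩, rfl⟩
  have hq : Topology.IsQuotientMap π := hπ.isClosedMap.isQuotientMap hπ hs
  rw [hq.continuous_iff, continuous_prod_of_discrete_left]
  intro p
  exact h (fun i => (p i : ℕ)) (fun i => (p i).2)

end real

theorem real (fam : FamStatement) : RealStatement := by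
  intro V W _ P Ψ k hP hcont hface m G hG
  classical
  let d : W := Ψ k (lab (gf 0 false (2 ^ m) G) (fun _ => 0)) (fun _ => 0)
  let f : Cu (k + 1) → W := fun x =>
    if h : ∃ (a : (Fin (k + 1) × Bool) × ((Fin k → ℕ) × Cu k)),
        (∀ i, a.2.1 i < 2 ^ m) ∧ x = fi a.1.1 a.1.2 (sc m a.2.1 a.2.2) then
      Ψ k (lab (gf h.choose.1.1 h.choose.1.2 (2 ^ m) G) h.choose.2.1) h.choose.2.2
    else d
  have hf : ∀ i ε (p : Fin k → ℕ), (∀ j, p j < 2 ^ m) → ∀ y,
      f (fi i ε (sc m p y)) = Ψ k (lab (gf i ε (2 ^ m) G) p) y := by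
    intro i ε p hp y
    have h : ∃ (a : (Fin (k + 1) × Bool) × ((Fin k → ℕ) × Cu k)),
        (∀ i, a.2.1 i < 2 ^ m) ∧ fi i ε (sc m p y) = fi a.1.1 a.1.2 (sc m a.2.1 a.2.2) :=
      ⟨⟨⟨i, ε⟩, ⟨p, y⟩⟩, hp, rfl⟩
    show (if h : ∃ (a : (Fin (k + 1) × Bool) × ((Fin k → ℕ) × Cu k)),
        (∀ i, a.2.1 i < 2 ^ m) ∧ fi i ε (sc m p y) = fi a.1.1 a.1.2 (sc m a.2.1 a.2.2) then
      Ψ k (lab (gf h.choose.1.1 h.choose.1.2 (2 ^ m) G) h.choose.2.1) h.choose.2.2
    else d) = _
    rw [dif_pos h]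
    exact (real_compat P Ψ k hface m G hG i h.choose.1.1 ε h.choose.1.2 p h.choose.2.1 y
      h.choose.2.2 hp h.choose_spec.1 h.choose_spec.2).symm
  refine ⟨f, ?_, ?_⟩
  · rw [fam.1]
    intro i ε
    apply real_cont m
    intro p hp
    have : (fun y => f (fi i ε (sc m p y))) = Ψ k (lab (gf i ε (2 ^ m) G) p) := by
      funext y
      exact hf i ε p hp y
    rw [this]
    exact hcont _ (hG i ε p hp)
  · intro i ε p hp y
    exact hf i ε p hp y

end Pool.Agent.Lib.MP_b1a3a4_al.MVS.TH.H56
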